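import Mathlib

/-!
MP_ef197a_an: shifted Douglas-Rachford iterates for two balls.

Idea. Let `a`, `b` be the centres. The affine plane through `a`, `b` and the starting point `x` is
invariant under the projections onto both balls, hence under `T`. When the balls are disjoint, the
fixed point set of `v + T` contains the two points `p` and `p - v` of the axis through `a` and `b`,
where `p` is the point of `A` nearest to `B`. The shifted sequence `y n` is Fejér monotone with
respect to both of them, so that its component along the axis and the absolute value of its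
component orthogonal to the axis (which lies on a fixed line) converge. As `y (n+1) - y n → 0`, the
sign of the latter is eventually constant.
-/

namespace Pool.Agent.Results.MP_ef197a_an.TwoBalls

open Filter Topology Set Metric

open scoped RealInnerProductSpace

variable {E : Type*} [NormedAddCommGroup E] [InnerProductSpace ℝ E]

/-- `p` is a point of `C` nearest to `x`. -/
def IsNearest (C : Set E) (x p : E) : Prop := p ∈ C ∧ ∀ q ∈ C, ‖x - p‖ ≤ ‖x - q‖

open Classical in
/-- The nearest-point projection onto `C` (with value `x` at `x` if there is no nearest point,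
which does not happen for the balls below). -/
noncomputable def proj (C : Set E) (x : E) : E := if h : ∃ p, IsNearest C x p then h.choose else x

/-- The reflector `R_C = 2 P_C - Id`. -/
noncomputable def refl (C : Set E) (x : E) : E := (2 : ℝ) • proj C x - x

/-- The Douglas-Rachford operator `T = (Id + R_B R_A) / 2` of the pair `(A, B)`. -/
noncomputable def DR (A B : Set E) (x : E) : E := (1 / 2 : ℝ) • (x + refl B (refl A x))

/-- `v` is an element of least norm of the closure of the range of `Id - T`. -/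
def IsMinDisp (T : E → E) (v : E) : Prop :=
  v ∈ closure (range fun x => x - T x) ∧ ∀ w ∈ closure (range fun x => x - T x), ‖v‖ ≤ ‖w‖

/-! ### Projections -/

lemma proj_eq {C : Set E} {x p : E} (hp : p ∈ C) (hv : ∀ q ∈ C, ⟪x - p, q - p⟫ ≤ 0) :
    proj C x = p := by
  have key : ∀ q ∈ C, ‖x - p‖ ^ 2 + ‖q - p‖ ^ 2 ≤ ‖x - q‖ ^ 2 := by
    intro q hq
    have h1 : x - q = (x - p) - (q - p) := by abel
    have h2 := norm_sub_sq_real (x - p) (q - p)
    rw [← h1] at h2
    have := hv q hq
    linarith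
  have hn : IsNearest C x p := by
    refine ⟨hp, fun q hq => ?_⟩
    have := key q hq
    exact le_of_sq_le_sq (by nlinarith [sq_nonneg ‖q - p‖]) (norm_nonneg _)
  have hex : ∃ p, IsNearest C x p := ⟨p, hn⟩
  unfold proj
  rw [dif_pos hex]
  have h2 := hex.choose_spec
  set p' := hex.choose
  have h3 := key p' h2.1
  have h4 := h2.2 p hp
  have h5 : ‖x - p'‖ ^ 2 ≤ ‖x - p‖ ^ 2 := by
    exact pow_le_pow_left₀ (norm_nonneg _) h4 2
  have h6 : ‖p' - p‖ ^ 2 ≤ 0 := by linarith
  have h7 : ‖p' - p‖ = 0 := by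
    have := sq_nonneg ‖p' - p‖
    exact pow_eq_zero_iff (two_ne_zero) |>.1 (le_antisymm h6 this)
  exact sub_eq_zero.1 (norm_eq_zero.1 h7)

lemma ball_aux (a : E) {r : ℝ} (hr : 0 ≤ r) (x : E) :
    ∃ l : ℝ, a + l • (x - a) ∈ closedBall a r ∧
      ∀ q ∈ closedBall a r, ⟪x - (a + l • (x - a)), q - (a + l • (x - a))⟫ ≤ 0 := by
  by_cases h : ‖x - a‖ ≤ r
  · refine ⟨1, ?_, ?_⟩
    · simpa [mem_closedBall, dist_eq_norm] using h
    · intro q _
      have : x - (a + (1 : ℝ) • (x - a)) = 0 := by simp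
      rw [this, inner_zero_left]
  · push Not at h
    have hd : 0 < ‖x - a‖ := lt_of_le_of_lt hr h
    refine ⟨r / ‖x - a‖, ?_, ?_⟩
    · rw [mem_closedBall, dist_eq_norm, add_sub_cancel_left, norm_smul, Real.norm_eq_abs, abs_div,
        abs_of_nonneg hr, abs_of_pos hd, div_mul_cancel₀ _ hd.ne']
    · intro q hq
      rw [mem_closedBall, dist_eq_norm] at hq
      have e1 : x - (a + (r / ‖x - a‖) • (x - a)) = (1 - r / ‖x - a‖) • (x - a) := by
        rw [sub_smul, one_smul]; abel
      have e2 : q - (a + (r / ‖x - a‖) • (x - a)) = (q - a) - (r / ‖x - a‖) • (x - a) := by abel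
      rw [e1, e2, real_inner_smul_left, inner_sub_right, real_inner_smul_right,
        real_inner_self_eq_norm_sq]
      have h1 : 0 ≤ 1 - r / ‖x - a‖ := by
        rw [sub_nonneg, div_le_one hd]; exact h.le
      have h2 : ⟪x - a, q - a⟫ ≤ ‖x - a‖ * r :=
        (real_inner_le_norm _ _).trans (mul_le_mul_of_nonneg_left hq hd.le)
      have h3 : r / ‖x - a‖ * ‖x - a‖ ^ 2 = ‖x - a‖ * r := by
        field_simp
      rw [h3]
      exact mul_nonpos_of_nonneg_of_nonpos h1 (by linarith)

lemma proj_ball (a : E) {r : ℝ} (hr : 0 ≤ r) (x : E) :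
    ∃ l : ℝ, proj (closedBall a r) x = a + l • (x - a) := by
  obtain ⟨l, h1, h2⟩ := ball_aux a hr x
  exact ⟨l, proj_eq h1 h2⟩

lemma proj_mem (a : E) {r : ℝ} (hr : 0 ≤ r) (x : E) :
    proj (closedBall a r) x ∈ closedBall a r := by
  obtain ⟨l, h1, h2⟩ := ball_aux a hr x
  rw [proj_eq h1 h2]; exact h1

lemma proj_inner (a : E) {r : ℝ} (hr : 0 ≤ r) (x q : E) (hq : q ∈ closedBall a r) :
    ⟪x - proj (closedBall a r) x, q - proj (closedBall a r) x⟫ ≤ 0 := by
  obtain ⟨l, h1, h2⟩ := ball_aux a hr x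
  rw [proj_eq h1 h2]; exact h2 q hq

lemma refl_nonexp (a : E) {r : ℝ} (hr : 0 ≤ r) (x y : E) :
    ‖refl (closedBall a r) x - refl (closedBall a r) y‖ ≤ ‖x - y‖ := by
  have h1 := proj_inner a hr x _ (proj_mem a hr y)
  have h2 := proj_inner a hr y _ (proj_mem a hr x)
  unfold refl
  set p := proj (closedBall a r) x
  set q := proj (closedBall a r) y
  have e : (2 : ℝ) • p - x - ((2 : ℝ) • q - y) = (2 : ℝ) • (p - q) - (x - y) := by
    rw [smul_sub]; abel
  have h3 : ‖p - q‖ ^ 2 ≤ ⟪p - q, x - y⟫ := by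
    have e1 : ⟪x - p, q - p⟫ + ⟪y - q, p - q⟫ = ‖p - q‖ ^ 2 - ⟪p - q, x - y⟫ := by
      rw [← real_inner_self_eq_norm_sq]
      simp only [inner_sub_left, inner_sub_right, real_inner_comm]
      ring_nf
    linarith
  refine le_of_sq_le_sq ?_ (norm_nonneg _)
  rw [e, norm_sub_sq_real, norm_smul, real_inner_smul_left]
  norm_num
  nlinarith

/-! ### The operator `T` -/

section DR

variable {a b : E} {r s : ℝ}

lemma DR_eq (A B : Set E) (x : E) : DR A B x = x - proj A x + proj B (refl A x) := by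
  unfold DR
  conv_lhs => rw [refl]
  have : x + ((2 : ℝ) • proj B (refl A x) - refl A x) =
      (2 : ℝ) • (x - proj A x + proj B (refl A x)) := by
    conv_lhs => rw [show refl A x = (2 : ℝ) • proj A x - x from rfl]
    conv_rhs => rw [show refl A x = (2 : ℝ) • proj A x - x from rfl]
    simp only [smul_add, smul_sub, two_smul]
    abel
  rw [this, smul_smul]
  norm_num

lemma disp_mem (hr : 0 ≤ r) (hs : 0 ≤ s) (x : E) :
    x - DR (closedBall a r) (closedBall b s) x ∈ closedBall (a - b) (r + s) := by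
  rw [DR_eq]
  set A := closedBall a r with hA
  set B := closedBall b s with hB
  have h1 : proj A x ∈ closedBall a r := proj_mem a hr x
  have h2 : proj B (refl A x) ∈ closedBall b s := proj_mem b hs _
  rw [mem_closedBall, dist_eq_norm] at h1 h2 ⊢
  have e : x - (x - proj A x + proj B (refl A x)) - (a - b) =
      (proj A x - a) - (proj B (refl A x) - b) := by abel
  rw [e]
  exact (norm_sub_le _ _).trans (add_le_add h1 h2)

lemma firm (hr : 0 ≤ r) (hs : 0 ≤ s) (x y : E) :
    ‖DR (closedBall a r) (closedBall b s) x - DR (closedBall a r) (closedBall b s) y‖ ^ 2 +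
      ‖(x - DR (closedBall a r) (closedBall b s) x) -
        (y - DR (closedBall a r) (closedBall b s) y)‖ ^ 2 ≤ ‖x - y‖ ^ 2 := by
  unfold DR
  set A := closedBall a r with hA
  set B := closedBall b s with hB
  have h1 : ‖refl B (refl A x) - refl B (refl A y)‖ ≤ ‖x - y‖ :=
    (refl_nonexp b hs _ _).trans (refl_nonexp a hr _ _)
  set N := refl B (refl A x)
  set M := refl B (refl A y)
  have h2 : ‖N - M‖ ^ 2 ≤ ‖x - y‖ ^ 2 := pow_le_pow_left₀ (norm_nonneg _) h1 2
  have e1 : (1 / 2 : ℝ) • (x + N) - (1 / 2 : ℝ) • (y + M) = (1 / 2 : ℝ) • ((x - y) + (N - M)) := by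
    rw [← smul_sub]; congr 1; abel
  have e2 : (x - (1 / 2 : ℝ) • (x + N)) - (y - (1 / 2 : ℝ) • (y + M)) =
      (1 / 2 : ℝ) • ((x - y) - (N - M)) := by
    module
  have h3 := norm_add_sq_real (x - y) (N - M)
  have h4 := norm_sub_sq_real (x - y) (N - M)
  have h5 : ‖(1 / 2 : ℝ)‖ ^ 2 = 1 / 4 := by norm_num
  rw [e1, e2, norm_smul, norm_smul, mul_pow, mul_pow, h5]
  linarith

lemma nonexp (hr : 0 ≤ r) (hs : 0 ≤ s) (x y : E) :
    ‖DR (closedBall a r) (closedBall b s) x - DR (closedBall a r) (closedBall b s) y‖ ≤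
      ‖x - y‖ := by
  have h := firm (a := a) (b := b) hr hs x y
  exact le_of_sq_le_sq (by nlinarith [sq_nonneg ‖(x - DR (closedBall a r) (closedBall b s) x) -
        (y - DR (closedBall a r) (closedBall b s) y)‖]) (norm_nonneg _)

/-- The explicit minimal displacement vector. -/
noncomputable def v0 (a b : E) (r s : ℝ) : E := proj (closedBall (a - b) (r + s)) 0

lemma v0_inner (hr : 0 ≤ r) (hs : 0 ≤ s) (q : E) (hq : q ∈ closedBall (a - b) (r + s)) :
    ‖v0 a b r s‖ ^ 2 ≤ ⟪v0 a b r s, q⟫ := by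
  have h := proj_inner (a - b) (add_nonneg hr hs) 0 q hq
  change ⟪0 - v0 a b r s, q - v0 a b r s⟫ ≤ 0 at h
  rw [zero_sub, inner_neg_left, inner_sub_right, real_inner_self_eq_norm_sq] at h
  linarith

lemma v0_uniq (hr : 0 ≤ r) (hs : 0 ≤ s) (w : E) (hw : w ∈ closedBall (a - b) (r + s))
    (h : ‖w‖ ≤ ‖v0 a b r s‖) : w = v0 a b r s := by
  have h1 := v0_inner hr hs w hw
  have h2 := norm_sub_sq_real w (v0 a b r s)
  rw [real_inner_comm] at h2
  have h3 : ‖w‖ ^ 2 ≤ ‖v0 a b r s‖ ^ 2 := pow_le_pow_left₀ (norm_nonneg _) h 2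
  have h4 : ‖w - v0 a b r s‖ ^ 2 ≤ 0 := by linarith
  have h5 : ‖w - v0 a b r s‖ = 0 :=
    (pow_eq_zero_iff two_ne_zero).1 (le_antisymm h4 (sq_nonneg _))
  exact sub_eq_zero.1 (norm_eq_zero.1 h5)

lemma exists_attain (hr : 0 ≤ r) (hs : 0 ≤ s) :
    ∃ (p : E) (c d : ℝ), p - DR (closedBall a r) (closedBall b s) p = v0 a b r s ∧
      p = a + c • v0 a b r s + d • (a - b) := by
  have hv : v0 a b r s ∈ closedBall (a - b) (r + s) := proj_mem _ (add_nonneg hr hs) 0
  have hv' : ‖v0 a b r s - (a - b)‖ ≤ r + s := by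
    rwa [mem_closedBall, dist_eq_norm] at hv
  -- a point of each ball
  obtain ⟨p, q, c, d, hp, hq, hpq, hpc⟩ : ∃ (p q : E) (c d : ℝ), p ∈ closedBall a r ∧
      q ∈ closedBall b s ∧ p - q = v0 a b r s ∧ p = a + c • v0 a b r s + d • (a - b) := by
    rcases (add_nonneg hr hs).eq_or_lt' with h0 | h0
    · have hr0 : r = 0 := by linarith
      have hs0 : s = 0 := by linarith
      have : v0 a b r s - (a - b) = 0 := by
        rw [h0] at hv'
        exact norm_le_zero_iff.1 hv'
      refine ⟨a, b, 0, 0, mem_closedBall_self hr, mem_closedBall_self hs,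
        (sub_eq_zero.1 this).symm, by simp⟩
    · refine ⟨a + (r / (r + s)) • (v0 a b r s - (a - b)),
        b - (s / (r + s)) • (v0 a b r s - (a - b)), r / (r + s), - (r / (r + s)), ?_, ?_, ?_, ?_⟩
      · rw [mem_closedBall, dist_eq_norm, add_sub_cancel_left, norm_smul, Real.norm_eq_abs,
          abs_of_nonneg (div_nonneg hr h0.le)]
        calc r / (r + s) * ‖v0 a b r s - (a - b)‖ ≤ r / (r + s) * (r + s) :=
              mul_le_mul_of_nonneg_left hv' (div_nonneg hr h0.le)
          _ = r := by field_simp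
      · rw [mem_closedBall, dist_eq_norm, sub_sub_cancel_left, norm_neg, norm_smul,
          Real.norm_eq_abs, abs_of_nonneg (div_nonneg hs h0.le)]
        calc s / (r + s) * ‖v0 a b r s - (a - b)‖ ≤ s / (r + s) * (r + s) :=
              mul_le_mul_of_nonneg_left hv' (div_nonneg hs h0.le)
          _ = s := by field_simp
      · have : r / (r + s) + s / (r + s) = 1 := by field_simp
        have e : a + (r / (r + s)) • (v0 a b r s - (a - b)) -
            (b - (s / (r + s)) • (v0 a b r s - (a - b))) =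
            (a - b) + (r / (r + s) + s / (r + s)) • (v0 a b r s - (a - b)) := by module
        rw [e, this]; module
      · module
  refine ⟨p, c, d, ?_, hpc⟩
  have hP : proj (closedBall a r) p = p := proj_eq hp (by intro q _; simp)
  have hR : refl (closedBall a r) p = p := by
    unfold refl; rw [hP]; module
  have hB : proj (closedBall b s) p = q := by
    refine proj_eq hq (fun q' hq' => ?_)
    have h1 : p - q' ∈ closedBall (a - b) (r + s) := by
      rw [mem_closedBall, dist_eq_norm] at hp hq' ⊢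
      have e : p - q' - (a - b) = (p - a) - (q' - b) := by abel
      rw [e]
      exact (norm_sub_le _ _).trans (add_le_add hp hq')
    have h2 := v0_inner hr hs _ h1
    rw [← hpq] at h2
    rw [← real_inner_self_eq_norm_sq] at h2
    have e : q' - q = (p - q) - (p - q') := by abel
    rw [e, inner_sub_right]
    linarith
  rw [DR_eq, hP, hR, hB, ← hpq]
  abel

lemma isMinDisp_v0 (hr : 0 ≤ r) (hs : 0 ≤ s) :
    IsMinDisp (DR (closedBall a r) (closedBall b s)) (v0 a b r s) := by
  obtain ⟨p, c, d, hp, -⟩ := exists_attain (a := a) (b := b) hr hs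
  refine ⟨subset_closure ⟨p, hp⟩, fun w hw => ?_⟩
  have hw' : w ∈ closedBall (a - b) (r + s) := by
    refine closure_minimal ?_ isClosed_closedBall hw
    rintro _ ⟨x, rfl⟩
    exact disp_mem hr hs x
  have h1 := v0_inner hr hs w hw'
  have h2 : ‖v0 a b r s‖ ^ 2 ≤ ‖v0 a b r s‖ * ‖w‖ := h1.trans (real_inner_le_norm _ _)
  rcases (norm_nonneg (v0 a b r s)).eq_or_lt' with h0 | h0
  · rw [h0]; exact norm_nonneg _
  · rw [sq] at h2
    exact le_of_mul_le_mul_left h2 h0

lemma isMinDisp_iff (hr : 0 ≤ r) (hs : 0 ≤ s) (v : E) :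
    IsMinDisp (DR (closedBall a r) (closedBall b s)) v ↔ v = v0 a b r s := by
  constructor
  · rintro ⟨h1, h2⟩
    refine v0_uniq hr hs v ?_ (h2 _ (isMinDisp_v0 hr hs).1)
    refine closure_minimal ?_ isClosed_closedBall h1
    rintro _ ⟨x, rfl⟩
    exact disp_mem hr hs x
  · rintro rfl; exact isMinDisp_v0 hr hs

/-- The shifted orbit of a point whose displacement is minimal is constant. -/
lemma iterate_attain (hr : 0 ≤ r) (hs : 0 ≤ s) (p : E)
    (hp : p - DR (closedBall a r) (closedBall b s) p = v0 a b r s) (n : ℕ) :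
    (DR (closedBall a r) (closedBall b s))^[n] p = p - (n : ℝ) • v0 a b r s := by
  set T := DR (closedBall a r) (closedBall b s) with hT
  have key : ∀ n : ℕ, T^[n] p = p - (n : ℝ) • v0 a b r s ∧
      T^[n] p - T (T^[n] p) = v0 a b r s := by
    intro n
    induction n with
    | zero => simpa using hp
    | succ n ih =>
      obtain ⟨h1, h2⟩ := ih
      have h3 : T^[n + 1] p = T (T^[n] p) := Function.iterate_succ_apply' T n p
      refine ⟨?_, ?_⟩
      · rw [h3]
        have : T (T^[n] p) = T^[n] p - v0 a b r s := by rw [← h2]; abel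
        rw [this, h1]; push_cast; module
      · rw [h3]
        refine v0_uniq hr hs _ (disp_mem hr hs _) ?_
        have := nonexp (a := a) (b := b) hr hs (T^[n] p) (T (T^[n] p))
        rw [h2] at this
        exact this
  exact (key n).1

/-! ### Fejér monotonicity -/

/-- The shifted orbit. -/
noncomputable def orb (a b : E) (r s : ℝ) (x : E) (n : ℕ) : E :=
  (DR (closedBall a r) (closedBall b s))^[n] x + (n : ℝ) • v0 a b r s

lemma fejer (hr : 0 ≤ r) (hs : 0 ≤ s) (x f : E)
    (hf : f - DR (closedBall a r) (closedBall b s) f = v0 a b r s) (n : ℕ) :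
    ‖orb a b r s x (n + 1) - f‖ ^ 2 + ‖orb a b r s x (n + 1) - orb a b r s x n‖ ^ 2 ≤
      ‖orb a b r s x n - f‖ ^ 2 := by
  have h1 := iterate_attain hr hs f hf n
  have h2 := iterate_attain hr hs f hf (n + 1)
  have h3 := firm (a := a) (b := b) hr hs
    ((DR (closedBall a r) (closedBall b s))^[n] x) ((DR (closedBall a r) (closedBall b s))^[n] f)
  rw [← Function.iterate_succ_apply' (DR (closedBall a r) (closedBall b s)) n x,
    ← Function.iterate_succ_apply' (DR (closedBall a r) (closedBall b s)) n f, h1, h2] at h3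
  unfold orb
  set X := (DR (closedBall a r) (closedBall b s))^[n] x
  set Y := (DR (closedBall a r) (closedBall b s))^[n + 1] x
  have e1 : Y + ((n + 1 : ℕ) : ℝ) • v0 a b r s - f =
      Y - (f - ((n + 1 : ℕ) : ℝ) • v0 a b r s) := by module
  have e2 : X + (n : ℝ) • v0 a b r s - f = X - (f - (n : ℝ) • v0 a b r s) := by module
  have e3 : Y + ((n + 1 : ℕ) : ℝ) • v0 a b r s - (X + (n : ℝ) • v0 a b r s) =
      -((X - Y) - (f - (n : ℝ) • v0 a b r s - (f - ((n + 1 : ℕ) : ℝ) • v0 a b r s))) := by
    push_cast; module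
  rw [e1, e2, e3, norm_neg]
  exact h3

lemma orb_tendsto (hr : 0 ≤ r) (hs : 0 ≤ s) (x f : E)
    (hf : f - DR (closedBall a r) (closedBall b s) f = v0 a b r s) :
    Antitone (fun n => ‖orb a b r s x n - f‖ ^ 2) ∧
    (∃ L, Tendsto (fun n => ‖orb a b r s x n - f‖ ^ 2) atTop (𝓝 L)) ∧
      Tendsto (fun n => orb a b r s x (n + 1) - orb a b r s x n) atTop (𝓝 0) := by
  have hanti : Antitone (fun n => ‖orb a b r s x n - f‖ ^ 2) := by
    refine antitone_nat_of_succ_le (fun n => ?_)
    have := fejer hr hs x f hf n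
    have h := sq_nonneg ‖orb a b r s x (n + 1) - orb a b r s x n‖
    linarith
  have hbdd : BddBelow (range fun n => ‖orb a b r s x n - f‖ ^ 2) :=
    ⟨0, by rintro _ ⟨n, rfl⟩; exact sq_nonneg _⟩
  have hlim := tendsto_atTop_ciInf hanti hbdd
  refine ⟨hanti, ⟨_, hlim⟩, ?_⟩
  have h1 := hlim.sub ((tendsto_add_atTop_iff_nat 1).2 hlim)
  rw [sub_self] at h1
  have h2 : Tendsto (fun n => ‖orb a b r s x (n + 1) - orb a b r s x n‖ ^ 2) atTop (𝓝 0) := by
    refine squeeze_zero (fun n => sq_nonneg _) (fun n => ?_) h1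
    have := fejer hr hs x f hf n
    linarith
  rw [tendsto_zero_iff_norm_tendsto_zero]
  have h3 := h2.sqrt
  simpa using h3

/-! ### Planar invariance -/

lemma orbit_mem (hr : 0 ≤ r) (hs : 0 ≤ s) (K : Submodule ℝ E) (hab : a - b ∈ K) (x : E)
    (hx : x - a ∈ K) (n : ℕ) : (DR (closedBall a r) (closedBall b s))^[n] x - a ∈ K := by
  induction n with
  | zero => simpa using hx
  | succ n ih =>
    rw [Function.iterate_succ_apply']
    set z := (DR (closedBall a r) (closedBall b s))^[n] x
    rw [DR_eq]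
    obtain ⟨l, hl⟩ := proj_ball a hr z
    obtain ⟨m, hm⟩ := proj_ball b hs (refl (closedBall a r) z)
    have e0 : refl (closedBall a r) z = a + (2 * l - 1) • (z - a) := by
      unfold refl; rw [hl]; module
    rw [hl, hm, e0]
    have e : z - (a + l • (z - a)) + (b + m • (a + (2 * l - 1) • (z - a) - b)) - a =
        (1 - l + m * (2 * l - 1)) • (z - a) + (m - 1) • (a - b) := by module
    rw [e]
    exact K.add_mem (K.smul_mem _ ih) (K.smul_mem _ hab)

end DR

/-! ### Two convergence lemmas -/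

lemma sign_lemma (t : ℕ → ℝ) (L : ℝ) (h : Tendsto (fun n => t n ^ 2) atTop (𝓝 L))
    (h' : Tendsto (fun n => t (n + 1) - t n) atTop (𝓝 0)) : ∃ l, Tendsto t atTop (𝓝 l) := by
  have habs : Tendsto (fun n => |t n|) atTop (𝓝 (√L)) := by
    have := h.sqrt
    simpa [Real.sqrt_sq_eq_abs] using this
  rcases (Real.sqrt_nonneg L).eq_or_lt' with h0 | h0
  · rw [h0] at habs
    exact ⟨0, (tendsto_zero_iff_abs_tendsto_zero t).2 habs⟩
  · set m := √L with hm
    have h1 : ∀ᶠ n in atTop, m / 2 < |t n| := habs.eventually (lt_mem_nhds (by linarith))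
    have h2 : ∀ᶠ n in atTop, |t (n + 1) - t n| < m / 2 := by
      have := h'.abs
      rw [abs_zero] at this
      exact this.eventually (gt_mem_nhds (by linarith))
    obtain ⟨N, hN⟩ := eventually_atTop.1 (h1.and h2)
    by_cases hpos : 0 < t N
    · have hall : ∀ n ≥ N, 0 < t n := by
        intro n hn
        induction n, hn using Nat.le_induction with
        | base => exact hpos
        | succ n hn ih =>
          obtain ⟨h3, h4⟩ := hN n hn
          rw [abs_of_pos ih] at h3
          have := (abs_lt.1 h4).1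
          linarith
      refine ⟨m, habs.congr' ?_⟩
      filter_upwards [eventually_ge_atTop N] with n hn
      exact abs_of_pos (hall n hn)
    · have hneg : t N < 0 := by
        have := (hN N le_rfl).1
        rcases lt_trichotomy (t N) 0 with h | h | h
        · exact h
        · rw [h, abs_zero] at this; linarith
        · exact absurd h hpos
      have hall : ∀ n ≥ N, t n < 0 := by
        intro n hn
        induction n, hn using Nat.le_induction with
        | base => exact hneg
        | succ n hn ih =>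
          obtain ⟨h3, h4⟩ := hN n hn
          rw [abs_of_neg ih] at h3
          have := (abs_lt.1 h4).2
          linarith
      refine ⟨-m, (habs.neg).congr' ?_⟩
      filter_upwards [eventually_ge_atTop N] with n hn
      rw [abs_of_neg (hall n hn), neg_neg]

lemma two_point (y : ℕ → E) (f v w : E) (hv : v ≠ 0) (hvw : ⟪v, w⟫ = 0) (σ τ : ℕ → ℝ)
    (hy : ∀ n, y n - f = σ n • v + τ n • w)
    (h0 : ∃ L, Tendsto (fun n => ‖y n - f‖ ^ 2) atTop (𝓝 L))
    (h1 : ∃ L, Tendsto (fun n => ‖y n - (f - v)‖ ^ 2) atTop (𝓝 L))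
    (h2 : Tendsto (fun n => y (n + 1) - y n) atTop (𝓝 0)) : ∃ L, Tendsto y atTop (𝓝 L) := by
  obtain ⟨L0, h0⟩ := h0
  obtain ⟨L1, h1⟩ := h1
  have hv0 : 0 < ‖v‖ := norm_pos_iff.2 hv
  have pyth : ∀ c d : ℝ, ‖c • v + d • w‖ ^ 2 = c ^ 2 * ‖v‖ ^ 2 + d ^ 2 * ‖w‖ ^ 2 := by
    intro c d
    rw [norm_add_sq_real, real_inner_smul_left, real_inner_smul_right, hvw, norm_smul, norm_smul,
      mul_pow, mul_pow, Real.norm_eq_abs, Real.norm_eq_abs, sq_abs, sq_abs]
    ring
  have e0 : ∀ n, ‖y n - f‖ ^ 2 = σ n ^ 2 * ‖v‖ ^ 2 + τ n ^ 2 * ‖w‖ ^ 2 := by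
    intro n; rw [hy n, pyth]
  have e1 : ∀ n, ‖y n - (f - v)‖ ^ 2 = (σ n + 1) ^ 2 * ‖v‖ ^ 2 + τ n ^ 2 * ‖w‖ ^ 2 := by
    intro n
    have : y n - (f - v) = (σ n + 1) • v + τ n • w := by
      have := hy n
      rw [show y n - (f - v) = (y n - f) + v by abel, this]; module
    rw [this, pyth]
  -- convergence of `σ`
  have hσ : Tendsto σ atTop (𝓝 (((L1 - L0) / ‖v‖ ^ 2 - 1) / 2)) := by
    have := (((h1.sub h0).div_const (‖v‖ ^ 2)).sub_const 1).div_const 2
    refine this.congr (fun n => ?_)
    rw [e0, e1]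
    field_simp
    ring
  have hyn : ∀ n, y n = f + (σ n • v + τ n • w) := by
    intro n; rw [← hy n]; abel
  by_cases hw : w = 0
  · refine ⟨f + (((L1 - L0) / ‖v‖ ^ 2 - 1) / 2) • v, ?_⟩
    refine Tendsto.congr (fun n => ?_) ((hσ.smul_const v).const_add f)
    rw [hyn n, hw]; module
  · have hw0 : 0 < ‖w‖ := norm_pos_iff.2 hw
    have hτ2 : ∃ M, Tendsto (fun n => τ n ^ 2) atTop (𝓝 M) := by
      refine ⟨_, ((h0.sub ((hσ.pow 2).mul_const (‖v‖ ^ 2))).div_const (‖w‖ ^ 2)).congr
        (fun n => ?_)⟩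
      rw [e0]; field_simp; ring
    have hτd : Tendsto (fun n => τ (n + 1) - τ n) atTop (𝓝 0) := by
      have h3 : Tendsto (fun n => ‖y (n + 1) - y n‖ / ‖w‖) atTop (𝓝 0) := by
        have := h2.norm.div_const ‖w‖
        simpa using this
      refine squeeze_zero_norm (fun n => ?_) h3
      rw [Real.norm_eq_abs, le_div_iff₀ hw0]
      have e : y (n + 1) - y n = (σ (n + 1) - σ n) • v + (τ (n + 1) - τ n) • w := by
        rw [hyn, hyn]; module
      refine le_of_sq_le_sq ?_ (norm_nonneg _)
      rw [e, pyth, mul_pow, sq_abs]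
      have := mul_nonneg (sq_nonneg (σ (n + 1) - σ n)) (sq_nonneg ‖v‖)
      linarith
    obtain ⟨M, hM⟩ := hτ2
    obtain ⟨l, hl⟩ := sign_lemma τ M hM hτd
    exact ⟨_, (((hσ.smul_const v).add (hl.smul_const w)).const_add f).congr
      (fun n => (hyn n).symm)⟩

/-! ### The main theorem -/

lemma disjoint_case (a b : E) {r s : ℝ} (hr : 0 ≤ r) (hs : 0 ≤ s) (h : r + s < ‖a - b‖) (x : E) :
    ∃ L, Tendsto (orb a b r s x) atTop (𝓝 L) := by
  have hv : v0 a b r s ≠ 0 := by
    intro h0
    have h1 : v0 a b r s ∈ closedBall (a - b) (r + s) := proj_mem _ (add_nonneg hr hs) 0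
    rw [h0, mem_closedBall, dist_eq_norm, zero_sub, norm_neg] at h1
    linarith
  have hvn : ‖v0 a b r s‖ ^ 2 ≠ 0 := pow_ne_zero 2 (norm_ne_zero_iff.2 hv)
  obtain ⟨l, hl⟩ : ∃ l : ℝ, v0 a b r s = (a - b) + l • (0 - (a - b)) :=
    proj_ball (a - b) (add_nonneg hr hs) 0
  have hl' : v0 a b r s = (1 - l) • (a - b) := by rw [hl]; module
  have hl1 : (1 - l) ≠ 0 := by
    intro h0; rw [h0, zero_smul] at hl'; exact hv hl'
  have hab : a - b = (1 - l)⁻¹ • v0 a b r s := by
    rw [hl', smul_smul, inv_mul_cancel₀ hl1, one_smul]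
  set V := v0 a b r s with hV
  set w := (x - a) - (⟪V, x - a⟫ / ‖V‖ ^ 2) • V with hw
  have hVw : ⟪V, w⟫ = 0 := by
    rw [hw, inner_sub_right, real_inner_smul_right, real_inner_self_eq_norm_sq,
      div_mul_cancel₀ _ hvn, sub_self]
  set K := Submodule.span ℝ ({V, w} : Set E) with hK
  have hVK : V ∈ K := Submodule.subset_span (by simp)
  have hwK : w ∈ K := Submodule.subset_span (by simp)
  have habK : a - b ∈ K := by rw [hab]; exact K.smul_mem _ hVK
  have hxK : x - a ∈ K := by
    have : x - a = w + (⟪V, x - a⟫ / ‖V‖ ^ 2) • V := by rw [hw]; abel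
    rw [this]
    exact K.add_mem hwK (K.smul_mem _ hVK)
  obtain ⟨p, c, d, hp, hpc⟩ := exists_attain (a := a) (b := b) hr hs
  have hpK : p - a ∈ K := by
    have : p - a = c • V + d • (a - b) := by rw [hpc]; abel
    rw [this]
    exact K.add_mem (K.smul_mem _ hVK) (K.smul_mem _ habK)
  have hmem : ∀ n, ∃ σ τ : ℝ, σ • V + τ • w = orb a b r s x n - p := by
    intro n
    have h1 := orbit_mem hr hs K habK x hxK n
    have h2 : orb a b r s x n - p ∈ K := by
      have : orb a b r s x n - p =
          ((DR (closedBall a r) (closedBall b s))^[n] x - a) + (n : ℝ) • V - (p - a) := by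
        unfold orb; abel
      rw [this]
      exact K.sub_mem (K.add_mem h1 (K.smul_mem _ hVK)) hpK
    exact Submodule.mem_span_pair.1 h2
  choose σ τ hστ using hmem
  have hp' : (p - V) - DR (closedBall a r) (closedBall b s) (p - V) = V := by
    have h2 := iterate_attain hr hs p hp 2
    have h3 : DR (closedBall a r) (closedBall b s) p = p - V := by rw [hV, ← hp]; abel
    have h4 : (DR (closedBall a r) (closedBall b s))^[2] p =
        DR (closedBall a r) (closedBall b s) (DR (closedBall a r) (closedBall b s) p) := rfl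
    rw [h4, h3] at h2
    rw [h2]
    push_cast
    rw [← hV]
    module
  obtain ⟨-, hA, hB⟩ := orb_tendsto hr hs x p hp
  obtain ⟨-, hC, -⟩ := orb_tendsto hr hs x (p - V) hp'
  exact two_point (orb a b r s x) p V w hv hVw σ τ (fun n => (hστ n).symm) hA hC hB

lemma touching_case (a b : E) {r s : ℝ} (hr : 0 ≤ r) (hs : 0 ≤ s) (h : ‖a - b‖ ≤ r + s) (x : E) :
    ∃ L, Tendsto (orb a b r s x) atTop (𝓝 L) := by
  have hv : v0 a b r s = 0 := by
    refine (v0_uniq hr hs 0 ?_ ?_).symm
    · rw [mem_closedBall, dist_eq_norm, zero_sub, norm_neg]; exact h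
    · rw [norm_zero]; exact norm_nonneg _
  set K := Submodule.span ℝ ({a - b, x - a} : Set E) with hK
  have : FiniteDimensional ℝ K := FiniteDimensional.span_of_finite ℝ (by simp)
  have : ProperSpace K := FiniteDimensional.proper_real K
  have habK : a - b ∈ K := Submodule.subset_span (by simp)
  have hxK : x - a ∈ K := Submodule.subset_span (by simp)
  have horb : ∀ n, orb a b r s x n = (DR (closedBall a r) (closedBall b s))^[n] x := by
    intro n; unfold orb; rw [hv]; simp
  obtain ⟨p, c, d, hp, -⟩ := exists_attain (a := a) (b := b) hr hs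
  obtain ⟨hA, -, hB⟩ := orb_tendsto hr hs x p hp
  let k : ℕ → K := fun n => ⟨orb a b r s x n - a, by
    rw [horb]; exact orbit_mem hr hs K habK x hxK n⟩
  have hbd : ∀ n, k n ∈ closedBall (0 : K) (‖orb a b r s x 0 - p‖ + ‖p - a‖) := by
    intro n
    rw [mem_closedBall, dist_zero_right]
    change ‖orb a b r s x n - a‖ ≤ _
    have e : orb a b r s x n - a = (orb a b r s x n - p) + (p - a) := by abel
    rw [e]
    refine (norm_add_le _ _).trans (add_le_add_left ?_ _)
    exact le_of_sq_le_sq (hA (Nat.zero_le n)) (norm_nonneg _)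
  obtain ⟨z, -, φ, hφ, hz⟩ := tendsto_subseq_of_bounded isBounded_closedBall hbd
  set Z : E := (z : E) + a with hZ
  have hz' : Tendsto (fun n => orb a b r s x (φ n)) atTop (𝓝 Z) := by
    have h1 : Tendsto (fun n => ((k (φ n) : K) : E)) atTop (𝓝 (z : E)) :=
      (continuous_subtype_val.tendsto z).comp hz
    refine (h1.add_const a).congr (fun n => ?_)
    change orb a b r s x (φ n) - a + a = _
    abel
  have hcont : Continuous (DR (closedBall a r) (closedBall b s)) := by
    refine (LipschitzWith.of_dist_le_mul (K := 1) (fun u v => ?_)).continuous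
    rw [dist_eq_norm, dist_eq_norm, NNReal.coe_one, one_mul]
    exact nonexp hr hs u v
  have hZfix : Z - DR (closedBall a r) (closedBall b s) Z = v0 a b r s := by
    have h1 : Tendsto (fun n => orb a b r s x (φ n) -
        DR (closedBall a r) (closedBall b s) (orb a b r s x (φ n))) atTop
        (𝓝 (Z - DR (closedBall a r) (closedBall b s) Z)) :=
      hz'.sub ((hcont.tendsto Z).comp hz')
    have h2 : Tendsto (fun n => orb a b r s x (φ n) -
        DR (closedBall a r) (closedBall b s) (orb a b r s x (φ n))) atTop (𝓝 0) := by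
      have h3 := (hB.comp hφ.tendsto_atTop).neg
      rw [neg_zero] at h3
      refine h3.congr (fun n => ?_)
      change -(orb a b r s x (φ n + 1) - orb a b r s x (φ n)) = _
      rw [horb, horb, Function.iterate_succ_apply']
      abel
    rw [hv]
    exact tendsto_nhds_unique h1 h2
  obtain ⟨-, ⟨L, hL⟩, -⟩ := orb_tendsto hr hs x Z hZfix
  have hL0 : L = 0 := by
    refine tendsto_nhds_unique (hL.comp hφ.tendsto_atTop) ?_
    have h1 := (hz'.sub_const Z).norm.pow 2
    rw [sub_self, norm_zero, zero_pow two_ne_zero] at h1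
    exact h1
  rw [hL0] at hL
  refine ⟨Z, ?_⟩
  rw [tendsto_iff_norm_sub_tendsto_zero]
  have h3 := hL.sqrt
  simpa using h3

/-- **Convergence of the shifted Douglas-Rachford iterates of two balls.** In every real inner
product space (in particular in the Euclidean space `ℝ³`), for all closed balls `A` and `B` and
every starting point `x`: the closure of the range of `Id - T` has exactly one element `v` of least
norm, and the sequence `T^n x + n v` converges. -/
theorem result (E : Type*) [NormedAddCommGroup E] [InnerProductSpace ℝ E] (a b : E) (r s : ℝ)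
    (hr : 0 ≤ r) (hs : 0 ≤ s) :
    ∃ v : E, (∀ w : E, IsMinDisp (DR (closedBall a r) (closedBall b s)) w ↔ w = v) ∧
      ∀ x : E, ∃ L : E,
        Tendsto (fun n : ℕ => (DR (closedBall a r) (closedBall b s))^[n] x + n • v) atTop (𝓝 L) := by
  refine ⟨v0 a b r s, fun w => isMinDisp_iff hr hs w, fun x => ?_⟩
  have h : ∃ L, Tendsto (orb a b r s x) atTop (𝓝 L) := by
    rcases le_or_gt ‖a - b‖ (r + s) with h | h
    · exact touching_case a b hr hs h x
    · exact disjoint_case a b hr hs h x
  obtain ⟨L, hL⟩ := h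
  refine ⟨L, hL.congr (fun n => ?_)⟩
  unfold orb
  rw [Nat.cast_smul_eq_nsmul]

end Pool.Agent.Results.MP_ef197a_an.TwoBalls
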